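import Pool.Agent.Helper66.OTR.Gsp

/-!
# MP_09799c_ag: one unipotent of odd rank forces the full symplectic monodromy

`V` is a finite-dimensional symplectic space over an algebraically closed field of characteristic
zero, `g` is a Lie algebra of symplectic similitudes of `V` acting irreducibly, and `N ∈ g` has
square zero.

* If `N` has rank `1` or `2`, then `g` contains the whole symplectic Lie algebra of `(V, ψ)`.
* If `N` has odd rank and `g` is generated, as a Lie algebra, by the idempotents which it contains,
  then `g` contains the whole symplectic Lie algebra of `(V, ψ)`.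

In the application `g` is the Lie algebra of the `ℓ`-adic monodromy group of an abelian variety
without extra endomorphisms, the idempotents are the (weak) Hodge cocharacters, and `N` is the
logarithm of the local monodromy at a place of semistable reduction of toric rank `rank N`.
The proof is elementary and uses no classification of representations.
-/

namespace Pool.Agent.Results.MP_09799c_ag.OddToricRank

open Pool.Agent.Helper66.OTR

theorem result {K V : Type*} [Field K] [IsAlgClosed K] [CharZero K] [AddCommGroup V] [Module K V]
    [FiniteDimensional K V] [Nontrivial V]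
    -- a symplectic form
    (ψ : LinearMap.BilinForm K V) (hnd : ψ.Nondegenerate) (halt : ∀ x, ψ x x = 0)
    -- a Lie algebra `g` of symplectic similitudes
    (g : Submodule K (Module.End K V))
    (hLie : ∀ X ∈ g, ∀ Y ∈ g, X * Y - Y * X ∈ g)
    (hgsp : ∀ X ∈ g, ∃ c : K, ∀ x y, ψ (X x) y + ψ x (X y) = c * ψ x y)
    -- acting irreducibly
    (hirr : ∀ W : Submodule K V, (∀ X ∈ g, ∀ w ∈ W, X w ∈ W) → W = ⊥ ∨ W = ⊤)
    -- an element of square zero
    (N : Module.End K V) (hN : N ∈ g) (hNN : N * N = 0)
    -- of rank one or two, or of odd rank when `g` is generated by its idempotents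
    (hrank : Module.finrank K (LinearMap.range N) = 1 ∨ Module.finrank K (LinearMap.range N) = 2 ∨
      (Odd (Module.finrank K (LinearMap.range N)) ∧
        ∀ g' : Submodule K (Module.End K V), (∀ X ∈ g', ∀ Y ∈ g', X * Y - Y * X ∈ g') →
          (∀ e ∈ g, e * e = e → e ∈ g') → g ≤ g')) :
    ∀ X : Module.End K V, (∀ x y, ψ (X x) y + ψ x (X y) = 0) → X ∈ g := by
  have S : Setup ψ (spart ψ g) := spart_setup hnd halt hLie hgsp ⟨inferInstance, hirr⟩
  have hNs : N ∈ spart ψ g := nilp_mem hnd hgsp hN hNN
  intro X hX
  refine sp_le_of_spart hnd halt hLie S ?_ (fun x y => eq_neg_of_add_eq_zero_left (hX x y))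
  intro Y hY
  rcases hrank with h1 | h2 | ⟨hodd, hgen⟩
  · exact S.rank_one hNs h1 hY
  · exact S.rank_two hNs hNN h2 hY
  · exact S.main_odd (spart_gen hnd hgsp hgen) hNs hNN hodd hY

end Pool.Agent.Results.MP_09799c_ag.OddToricRank
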