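import Pool.Agent.Helper59.RL.Final

/-!
# MP_09799c_ag: a reduction with one factor of maximal angle rank

`frob q h = T ^ g h(T + q / T)` is the characteristic polynomial of Frobenius of an absolutely simple
abelian variety `B` of dimension `g` over the field with `q` elements, `h` the polynomial of the
traces `π + q / π`; `splitF f` is the field generated over `ℚ` by the complex roots of `f`.

`B` has maximal angle rank: the only multiplicative relations between the roots of `frob q h` are
the trivial ones. The degree of the field of the roots of `frob q h` over the field of the roots of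
`h` is larger than the degree of the number field which is generated by the roots of `R`.

The group `G` is the image of the Galois group of a number field in the `ℓ`-adic representation `V`
of an abelian variety `A` (after an isomorphism of the algebraic closure of `ℚ_ℓ` and `ℂ`) and `γ`
is the Frobenius of a place where the reduction of `A` is geometrically isogenous to `B × C`. The
characteristic polynomial of the Frobenius of `C` over the field with `q ^ N` elements is `R`.

The smallest subrepresentation `V₁` which contains the part of `B` splits off orthogonally, and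
the Lie algebra of the Zariski closure of `G` is as large as its endomorphism algebra and its
image on the complement `V₂` allow.
-/

open Polynomial Finset

namespace Pool.Agent.Results.MP_09799c_ag.RelativeLifts

open Pool.Agent.Helper84.LM (InfSim InLie)
open Pool.Agent.Helper19.AAR (splitF)
open Pool.Agent.Helper19.SC (frob croots)
open Pool.Agent.Helper59.RL (Part orth)

theorem result (q : ℕ) (h : ℤ[X]) (hq : 2 ≤ q) (hm : h.Monic)
    -- an absolutely simple isogeny class
    (hirr : Irreducible (frob q h)) (hweil : ∀ z ∈ croots (frob q h), ‖z‖ ^ 2 = q)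
    (habs : ∀ z ∈ croots (frob q h), ∀ z' ∈ croots (frob q h), ∀ k : ℕ, 0 < k →
      z ^ k = z' ^ k → z = z')
    -- of maximal angle rank
    (hang : ∀ (n : ℂ → ℤ) (k : ℕ), 0 < k → (∏ z ∈ croots (frob q h), z ^ n z) ^ k = 1 →
      ∀ z ∈ croots (frob q h), n z = n (q / z))
    -- a small number field
    (R : ℤ[X]) (hdeg : Module.finrank ℚ (splitF R) * Module.finrank ℚ (splitF h) <
      Module.finrank ℚ (splitF (frob q h)))
    -- a symplectic space and a semisimple similitude
    {V : Type} [AddCommGroup V] [Module ℂ V] [FiniteDimensional ℂ V]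
    (ψ : LinearMap.BilinForm ℂ V) (hnd : ψ.Nondegenerate) (halt : ∀ x, ψ x x = 0)
    (N : ℕ) (hN : 0 < N) (γ : (Module.End ℂ V)ˣ) (hγss : (γ : Module.End ℂ V).IsSemisimple)
    (hmult : ∀ x y, ψ ((γ : Module.End ℂ V) x) ((γ : Module.End ℂ V) y) = (q : ℂ) ^ N * ψ x y)
    (hchar : (γ : Module.End ℂ V).charpoly =
      (∏ z ∈ croots (frob q h), (X - C (z ^ N))) * R.map (Int.castRingHom ℂ))
    -- a group of similitudes which contains it, with a semisimple representation
    (G : Subgroup (Module.End ℂ V)ˣ)
    (hG : ∀ g ∈ G, ∃ c : ℂ, ∀ x y, ψ ((g : Module.End ℂ V) x) ((g : Module.End ℂ V) y) = c * ψ x y)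
    (hγ : γ ∈ G)
    (hss : ∀ U : Submodule ℂ V, (∀ X, InLie G X → ∀ u ∈ U, X u ∈ U) →
      ∃ U' : Submodule ℂ V, (∀ X, InLie G X → ∀ u ∈ U', X u ∈ U') ∧ IsCompl U U')
    -- the part of `B`, and its complement
    (V₁ V₂ : Submodule ℂ V)
    (hV₁ : V₁ = Part G {v | ∃ z ∈ croots (frob q h), (γ : Module.End ℂ V) v = z ^ N • v})
    (hV₂ : V₂ = orth ψ V₁) :
    IsCompl V₁ V₂ ∧ ∀ X : Module.End ℂ V, InLie G X ↔
      InfSim ψ X ∧
      (∀ Y : Module.End ℂ V, (∀ Z, InLie G Z → Y * Z = Z * Y) → X * Y = Y * X) ∧
      ∃ Z, InLie G Z ∧ ∀ v ∈ V₂, X v = Z v := by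
  subst hV₂ hV₁
  exact Pool.Agent.Helper59.RL.relative' q h hq hm hirr hweil habs hang R N hN.ne' hdeg ψ hnd halt γ
    hγss hmult hchar G hG hγ hss

end Pool.Agent.Results.MP_09799c_ag.RelativeLifts
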