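import Pool.Agent.Helper66.OTR.SpSimple

/-!
# MP_09799c_ag: one simple eigenvalue without relations forces full symplectic monodromy

`V` is a symplectic space of dimension greater than four over an algebraically closed field of
characteristic zero, `g` is a Lie algebra of symplectic similitudes acting irreducibly on `V`, and
`γ` is a symplectic similitude, with multiplier `c`, which normalizes `g`. Suppose that `γ` has an
eigenvalue `ζ` of algebraic multiplicity one such that for all the eigenvalues `a`, `b`, `d` of `γ`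
other than `ζ` and `c / ζ` one has `ζ ^ 2 ≠ a * b` and `ζ * d ≠ a * b`. Then `g` contains the
symplectic Lie algebra.

For instance `γ` can be any element of the symplectic group with eigenvalues
`z, 1/z, 1, ..., 1`, where `z ^ 2 ≠ 1`, or any similitude with multiplier `q` such that one
eigenvalue is a unit at a place above `p`, and the other eigenvalues have valuations in the open
interval from `1/3` to `2/3` of the valuation of `q` or equal to it.

In the application `g` is the Lie algebra of the `ℓ`-adic monodromy group of an abelian variety,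
and `γ` is an element of the image of Galois (Frobenius or inertia), which need not lie in the
connected monodromy group.
-/

namespace Pool.Agent.Results.MP_09799c_ag.SimpleEigenvalue

open Pool.Agent.Helper66.OTR

theorem result {K V : Type*} [Field K] [IsAlgClosed K] [CharZero K] [AddCommGroup V] [Module K V]
    [FiniteDimensional K V]
    -- a symplectic form
    (ψ : LinearMap.BilinForm K V) (hnd : ψ.Nondegenerate) (halt : ∀ x, ψ x x = 0)
    -- a Lie algebra `g` of symplectic similitudes
    (g : Submodule K (Module.End K V))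
    (hLie : ∀ X ∈ g, ∀ Y ∈ g, X * Y - Y * X ∈ g)
    (hgsp : ∀ X ∈ g, ∃ t : K, ∀ x y, ψ (X x) y + ψ x (X y) = t * ψ x y)
    -- acting irreducibly
    (hirr : ∀ W : Submodule K V, (∀ X ∈ g, ∀ w ∈ W, X w ∈ W) → W = ⊥ ∨ W = ⊤)
    (hdim : 4 < Module.finrank K V)
    -- a symplectic similitude `γ` with multiplier `c`, which normalizes `g`
    (γ : V ≃ₗ[K] V) (c : K) (hsim : ∀ x y, ψ (γ x) (γ y) = c * ψ x y)
    (hnorm : ∀ X ∈ g, (γ : V →ₗ[K] V) ∘ₗ X ∘ₗ (γ.symm : V →ₗ[K] V) ∈ g)
    -- an eigenvalue `ζ` of `γ` of algebraic multiplicity one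
    (ζ : K) (hζ : Module.finrank K (Module.End.maxGenEigenspace (γ : V →ₗ[K] V) ζ) = 1)
    -- the eigenvalues `a`, `b`, `d` other than `ζ` and `c / ζ`
    (hothers : ∀ a b : K, Module.End.HasEigenvalue (γ : V →ₗ[K] V) a →
      Module.End.HasEigenvalue (γ : V →ₗ[K] V) b →
      a ≠ ζ → a * ζ ≠ c → b ≠ ζ → b * ζ ≠ c →
        ζ ^ 2 ≠ a * b ∧
        ∀ d : K, Module.End.HasEigenvalue (γ : V →ₗ[K] V) d → d ≠ ζ → d * ζ ≠ c →
          ζ * d ≠ a * b) :
    ∀ X : Module.End K V, (∀ x y, ψ (X x) y + ψ x (X y) = 0) → X ∈ g := by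
  have hnt : Nontrivial V := Module.nontrivial_of_finrank_pos (R := K) (by omega)
  have S : Setup ψ (spart ψ g) := spart_setup hnd halt hLie hgsp ⟨hnt, hirr⟩
  have hs : ∀ X ∈ spart ψ g, cj γ X ∈ spart ψ g := spart_norm hsim hnorm
  obtain ⟨l, l', P⟩ := S.exists_pair hsim hζ
  have hc : ∀ ν : K, ν ≠ c / ζ → ν * ζ ≠ c := by
    intro ν h h'
    exact h ((eq_div_iff P.hζ).2 h')
  intro X hX
  refine sp_le_of_spart hnd halt hLie S ?_ (fun x y => eq_neg_of_add_eq_zero_left (hX x y))
  intro Y hY
  refine S.sp_simple hs P hdim ?_ ?_ hY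
  · intro a x hx hx0 h1 h2 b y hy hy0 h3 h4
    have := (hothers a b (hasEigenvalue_of_ge hx hx0) (hasEigenvalue_of_ge hy hy0) h1 (hc a h2) h3
      (hc b h4)).1
    rwa [pow_two] at this
  · intro a x hx hx0 h1 h2 b y hy hy0 h3 h4 d z hz hz0 h5 h6
    exact (hothers a b (hasEigenvalue_of_ge hx hx0) (hasEigenvalue_of_ge hy hy0) h1 (hc a h2) h3
      (hc b h4)).2 d (hasEigenvalue_of_ge hz hz0) h5 (hc d h6)

end Pool.Agent.Results.MP_09799c_ag.SimpleEigenvalue
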